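import Pool.Agent.H920Z.SSS.LemB1

set_option autoImplicit false

namespace Pool.Agent.H920Z.SSSB

open Pool.Agent.H39Z.SSS MeasureTheory Polynomial Set

theorem cover (ν : Measure ℝ) [IsFiniteMeasure ν] (Z : Finset ℝ) (G : Set ℝ) (ρ m : ℝ)
    (hρ : 0 ≤ ρ) (hm : ∀ a : ℝ, ν.real {x | |x - a| ≤ ρ} ≤ m)
    (hG : (2 * Z.card + 1) * m < ν.real G) :
    ∃ x ∈ G, ∃ y ∈ G, x + ρ < y ∧ (∀ a ∈ Z, ρ < |x - a|) ∧ ∀ s ∈ Icc x y, s ∉ Z := by
  classical
  by_contra hc
  push Not at hc
  let k : ℝ → ℕ := fun x => (Z.filter fun a => a < x).card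
  let cl : ℕ → Set ℝ := fun n => {x | x ∈ G ∧ (∀ a ∈ Z, ρ < |x - a|) ∧ k x = n}
  have hm0 : 0 ≤ m := measureReal_nonneg.trans (hm 0)
  have key : ∀ n, ∀ x ∈ cl n, ∀ y ∈ cl n, y ≤ x + ρ := fun n x hx y hy => by
    by_contra h
    push Not at h
    obtain ⟨s, hs, hsZ⟩ := hc x hx.1 y hy.1 h hx.2.1
    have hsy : s < y := by
      refine lt_of_le_of_ne hs.2 fun e => ?_
      have := hy.2.1 s hsZ
      rw [e, sub_self, abs_zero] at this
      linarith
    have : k x < k y := by
      apply Finset.card_lt_card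
      refine ⟨fun a ha => ?_, fun hsub => ?_⟩
      · rw [Finset.mem_filter] at ha ⊢
        exact ⟨ha.1, by linarith [ha.2]⟩
      · have := (Finset.mem_filter.1 (hsub (Finset.mem_filter.2 ⟨hsZ, hsy⟩))).2
        linarith [hs.1]
    rw [hx.2.2, hy.2.2] at this
    exact lt_irrefl _ this
  have hcl : ∀ n, ν.real (cl n) ≤ m := fun n => by
    rcases (cl n).eq_empty_or_nonempty with h | ⟨a, ha⟩
    · rw [h]; simpa using hm0
    · refine (measureReal_mono (fun x hx => ?_)).trans (hm a)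
      have h1 := key n x hx a ha
      have h2 := key n a ha x hx
      simp only [mem_setOf_eq]
      rw [abs_le]; constructor <;> linarith
  have sub : G ⊆ (⋃ a ∈ Z, {x | |x - a| ≤ ρ}) ∪ ⋃ n ∈ Finset.range (Z.card + 1), cl n := by
    intro x hx
    by_cases h : ∀ a ∈ Z, ρ < |x - a|
    · right
      simp only [mem_iUnion]
      exact ⟨k x, Finset.mem_range.2 (Nat.lt_succ_of_le (Finset.card_filter_le _ _)), hx, h, rfl⟩
    · left
      push Not at h
      obtain ⟨a, ha, h⟩ := h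
      simp only [mem_iUnion]
      exact ⟨a, ha, h⟩
  have a1 := (measureReal_mono sub).trans (measureReal_union_le (μ := ν) _ _)
  have a2 := (measureReal_biUnion_finset_le (μ := ν) Z fun a => {x | |x - a| ≤ ρ}).trans
    (Finset.sum_le_card_nsmul _ _ m fun a _ => hm a)
  have a3 := (measureReal_biUnion_finset_le (μ := ν) (Finset.range (Z.card + 1)) cl).trans
    (Finset.sum_le_card_nsmul _ _ m fun n _ => hcl n)
  rw [nsmul_eq_mul] at a2 a3
  rw [Finset.card_range] at a3
  push_cast at a3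
  linarith

theorem lemB (hP : S_P1) : S_B := by
  classical
  intro μ _ R W C A hR hW hC hA hAR hmass hlp
  set B : ℝ := R + 1 + 64 * (W + 1) with hB
  have hB0 : 0 ≤ B := by positivity
  set c1 : ℝ := 3 * B + 8 * C + 1 with hc1
  have hc10 : 1 ≤ c1 := by linarith
  refine ⟨1 / (512 * c1), 64 * c1 + 64, by positivity, ?_⟩
  intro Λ hΛ ι t w z c hw hWs hcard hae hint
  by_contra hcon
  push Not at hcon
  set φ : ℝ → ℝ := fun x => x - c - ∑ i ∈ t, w i * Real.log ‖(x : ℂ) - z i‖ with hφ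
  set ε := Real.exp (-Λ / 2) with hε
  have hε0 : 0 < ε := Real.exp_pos _
  set r := Real.exp (-Λ / 8) with hr
  have hr0 : 0 < r := Real.exp_pos _
  have hΛ0 : 128 ≤ Λ := by linarith
  have hl2 : Real.log 2 ≤ 1 := by have := Real.log_two_lt_d9; linarith
  have hlog : Λ / 16 ≤ -Real.log (2 * r) := by
    rw [Real.log_mul two_ne_zero hr0.ne', hr, Real.log_exp]; linarith
  have hr1 : r ≤ 1 := Real.exp_le_one_iff.2 (by linarith)
  -- the doubled family
  let J : Finset (ι × Bool) := t ×ˢ Finset.univ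
  let ζ : ι × Bool → ℂ := fun p => if p.2 then z p.1 else (starRingEnd ℂ) (z p.1)
  have hJ : (J.card : ℝ) = 2 * t.card := by simp [J, Finset.card_product]; ring
  obtain ⟨n, τ, hn, hlow⟩ := lower hP W hW (ι × Bool) J (fun p => w p.1 / 2) ζ
    (fun p hp => div_nonneg (hw _ (Finset.mem_product.1 hp).1) two_pos.le) (by
      simp only [J, Finset.sum_product, Fintype.sum_bool, add_halves]; exact hWs)
  have hn' : (n : ℝ) ≤ 2 * t.card := by rw [← hJ]; exact_mod_cast hn
  have htc : (t.card : ℝ) * (512 * c1) ≤ Λ := by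
    rwa [one_div_mul_eq_div, le_div_iff₀ (by positivity)] at hcard
  have ht0 : (0 : ℝ) ≤ t.card := Nat.cast_nonneg _
  have hn0 : (0 : ℝ) ≤ n := Nat.cast_nonneg _
  set Z : Finset ℝ := t.image (fun i => (z i).re) ∪ Finset.univ.image (fun k => (τ k).re) with hZ
  have hZc : (Z.card : ℝ) ≤ 3 * t.card := by
    have h1 : Z.card ≤ t.card + n := by
      refine (Finset.card_union_le _ _).trans (add_le_add Finset.card_image_le ?_)
      simpa using Finset.card_image_le (s := (Finset.univ : Finset (Fin n)))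
        (f := fun k => (τ k).re)
    have h2 : (Z.card : ℝ) ≤ t.card + n := by exact_mod_cast h1
    linarith
  set ν := μ.restrict A with hν
  set g : ℝ → ℝ := fun x => ∑ k, H39Z.SSS.lp r ‖(x : ℂ) - τ k‖ with hg
  -- measure estimates
  have m1 : ν.real {x | 8 * ε ≤ |φ x|} ≤ 1 / 8 := by
    have a := mul_meas_ge_le_integral_of_nonneg (μ := μ) (f := fun x => |φ x|)
      (Filter.Eventually.of_forall fun x => abs_nonneg _) hint.abs (8 * ε)
    have b : ν.real {x | 8 * ε ≤ |φ x|} ≤ μ.real {x | 8 * ε ≤ |φ x|} :=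
      ENNReal.toReal_mono (measure_ne_top _ _) (Measure.restrict_le_self _)
    have c : 8 * ε * μ.real {x | 8 * ε ≤ |φ x|} ≤ ε := a.trans hcon
    nlinarith
  have m2 : ν.real {x | 8 * C * n + 1 ≤ g x} ≤ 1 / 8 := by
    have a := mul_meas_ge_le_integral_of_nonneg (μ := ν) (f := g)
      (Filter.Eventually.of_forall fun x => Finset.sum_nonneg fun k _ => lp_nonneg _ _ hr0)
      (integrable_finsetSum _ fun k _ => lp_int ν r hr0 hr1 _) (8 * C * n + 1)
    have b : ∫ x, g x ∂ν ≤ n * C := by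
      rw [hg, integral_finsetSum _ fun k _ => lp_int ν r hr0 hr1 _]
      have := Finset.sum_le_card_nsmul (Finset.univ : Finset (Fin n)) _ C
        fun k _ => hlp (τ k) r hr0 hr1
      simpa using this
    have c : 0 ≤ C * n := by positivity
    by_contra h
    push Not at h
    nlinarith
  have m3 : ∀ a : ℝ, ν.real {x | |x - a| ≤ 2 * r} ≤ 16 * C / Λ := fun a => by
    have a1 := mul_meas_ge_le_integral_of_nonneg (μ := ν)
      (f := fun x : ℝ => H39Z.SSS.lp r ‖(x : ℂ) - (a : ℂ)‖)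
      (Filter.Eventually.of_forall fun x => lp_nonneg _ _ hr0) (lp_int ν r hr0 hr1 _) (Λ / 16)
    have a2 : ν.real {x | |x - a| ≤ 2 * r} ≤
        ν.real {x : ℝ | Λ / 16 ≤ H39Z.SSS.lp r ‖(x : ℂ) - (a : ℂ)‖} := by
      refine measureReal_mono fun x hx => hlog.trans (lp_ge hr0 (by linarith) ?_)
      rw [← Complex.ofReal_sub, Complex.norm_real]
      exact hx
    have a3 := a1.trans (hlp a r hr0 hr1)
    rw [le_div_iff₀ (by linarith)]
    nlinarith
  set G : Set ℝ := {x | x ∈ A ∧ |φ x| < 8 * ε ∧ g x < 8 * C * n + 1} with hG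
  have m4 : 5 / 8 ≤ ν.real G := by
    have sub : A ⊆ G ∪ ({x | 8 * ε ≤ |φ x|} ∪ {x | 8 * C * n + 1 ≤ g x}) := fun x hx => by
      by_cases h1 : |φ x| < 8 * ε
      · by_cases h2 : g x < 8 * C * n + 1
        · exact Or.inl ⟨hx, h1, h2⟩
        · exact Or.inr (Or.inr (not_lt.1 h2))
      · exact Or.inr (Or.inl (not_lt.1 h1))
    have a1 := (measureReal_mono sub).trans (measureReal_union_le (μ := ν) _ _)
    have a2 := measureReal_union_le (μ := ν) {x | 8 * ε ≤ |φ x|} {x | 8 * C * n + 1 ≤ g x}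
    have a3 : ν.real A = μ.real A := by
      rw [hν, measureReal_restrict_apply hA, inter_self]
    linarith
  obtain ⟨x, hx, y, hy, hxy, hfar, hno⟩ := cover ν Z G (2 * r) (16 * C / Λ) (by positivity) m3 (by
    refine lt_of_lt_of_le ?_ m4
    rw [← mul_div_assoc, div_lt_iff₀ (by linarith)]
    have a1 : C ≤ c1 / 8 := by linarith
    have a2 : (2 * Z.card + 1) * (16 * C) ≤ (6 * t.card + 1) * (2 * c1) :=
      mul_le_mul (by linarith) (by linarith) (by positivity) (by positivity)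
    nlinarith)
  have hzZ : ∀ i ∈ t, (z i).re ∈ Z := fun i hi =>
    Finset.mem_union_left _ (Finset.mem_image_of_mem _ hi)
  have hτZ : ∀ k, (τ k).re ∈ Z := fun k =>
    Finset.mem_union_right _ (Finset.mem_image_of_mem _ (Finset.mem_univ k))
  let φ' : ℝ → ℝ := fun s => 1 - ∑ i ∈ t, w i * ((s - (z i).re) / ((s - (z i).re) ^ 2 + (z i).im ^ 2))
  have hne : ∀ s ∈ Icc x y, ∀ i ∈ t, s ≠ (z i).re := fun s hs i hi e => hno s hs (e ▸ hzZ i hi)
  have hd : ∀ s ∈ Icc x y, HasDerivAt φ (φ' s) s := fun s hs =>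
    ((hasDerivAt_id s).sub_const c).sub
      (HasDerivAt.fun_sum fun i hi => (dlog (z i) s (hne s hs i hi)).const_mul (w i))
  have hx0 := hAR hx.1
  have hy0 := hAR hy.1
  have hlow' : ∀ s ∈ Icc x y, 1 / 2 ≤ |φ' s| * Real.exp (B * (J.card + 1)) *
      ∏ k, (1 + B / ‖(s : ℂ) - τ k‖) := fun s hs => by
    have a := hlow s B (fun p hp e => by
        have h1 := congrArg Complex.re e
        refine hne s hs p.1 (Finset.mem_product.1 hp).1 ?_
        rcases p with ⟨i, _ | _⟩ <;> simpa [ζ] using h1)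
      (fun k e => hno s hs (by
        have h1 := congrArg Complex.re e
        simp only [Complex.ofReal_re] at h1
        rw [h1]; exact hτZ k))
      (by
        rw [Complex.norm_real, Real.norm_of_nonneg (hx0.1.trans hs.1)]
        linarith [hs.2, hy0.2])
    have e : (1 : ℂ) - ∑ j ∈ J, ((w j.1 / 2 : ℝ) : ℂ) / (s - ζ j) = (φ' s : ℝ) := by
      simp only [φ', J, Finset.sum_product, Fintype.sum_bool, ζ, Complex.ofReal_sub,
        Complex.ofReal_one, Complex.ofReal_sum]
      congr 1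
      refine Finset.sum_congr rfl fun i hi => ?_
      rw [cplx (z i) s (w i) (hne s hs i hi)]
      simp
    rwa [e, Complex.norm_real, Real.norm_eq_abs] at a
  obtain ⟨ξ, hξ, hsl⟩ := mono_step (f := φ) (f' := φ') hr0 (by linarith) hd fun s hs e => by
    have := hlow' s hs
    rw [e] at this
    norm_num at this
  have hξ' : ξ ∈ Icc x y := ⟨hξ.1, by linarith [hξ.2]⟩
  have a1 := hlow' ξ hξ'
  have a2 : ∏ k, (1 + B / ‖(ξ : ℂ) - τ k‖) ≤ Real.exp (n * (2 * B) + g x) := by
    calc ∏ k, (1 + B / ‖(ξ : ℂ) - τ k‖)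
        ≤ ∏ k, Real.exp (2 * B + H39Z.SSS.lp r ‖(x : ℂ) - τ k‖) := by
          refine Finset.prod_le_prod (fun k _ => by positivity) fun k _ => ?_
          have b1 : 2 * r < ‖(x : ℂ) - τ k‖ := by
            refine (hfar _ (hτZ k)).trans_le ?_
            simpa using Complex.abs_re_le_norm ((x : ℂ) - τ k)
          have b2 : ‖(x : ℂ) - τ k‖ ≤ ‖(x : ℂ) - ξ‖ + ‖(ξ : ℂ) - τ k‖ :=
            norm_sub_le_norm_sub_add_norm_sub _ _ _
          have b3 : ‖(x : ℂ) - ξ‖ ≤ r := by
            rw [← Complex.ofReal_sub, Complex.norm_real, Real.norm_eq_abs, abs_le]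
            constructor <;> linarith [hξ.1, hξ.2]
          have b4 : B / ‖(ξ : ℂ) - τ k‖ ≤ 2 * B / ‖(x : ℂ) - τ k‖ := by
            rw [div_le_div_iff₀ (by linarith) (by linarith)]
            nlinarith
          have b5 := lp_exp (δ := r) (y := ‖(x : ℂ) - τ k‖) (B := 2 * B) hr0 (by linarith)
            (by linarith)
          have b6 : 1 + 2 * B ≤ Real.exp (2 * B) := by
            have := Real.add_one_le_exp (2 * B); linarith
          rw [Real.exp_add]
          calc 1 + B / ‖(ξ : ℂ) - τ k‖ ≤ 1 + 2 * B / ‖(x : ℂ) - τ k‖ := by linarith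
            _ ≤ _ := b5
            _ ≤ _ := mul_le_mul_of_nonneg_right b6 (Real.exp_pos _).le
      _ = _ := by
          rw [← Real.exp_sum, Finset.sum_add_distrib]
          simp [hg]
  have a3 : |φ' ξ| ≤ 16 * Real.exp (-(3 * Λ / 8)) := by
    have e : ε = Real.exp (-(3 * Λ / 8)) * r := by
      rw [hε, hr, ← Real.exp_add]; congr 1; ring
    have b : |φ' ξ| * r ≤ 16 * ε := by linarith [hx.2.1, hy.2.1]
    rw [e, ← mul_assoc] at b
    exact le_of_mul_le_mul_right b hr0
  have a4 : 1 / 2 ≤ 16 * Real.exp (-(3 * Λ / 8)) * Real.exp (B * (J.card + 1)) *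
      Real.exp (n * (2 * B) + g x) :=
    a1.trans (mul_le_mul (mul_le_mul_of_nonneg_right a3 (Real.exp_pos _).le) a2
      (Finset.prod_nonneg fun k _ => by positivity) (by positivity))
  rw [mul_assoc, mul_assoc, ← Real.exp_add, ← Real.exp_add, hJ] at a4
  have a5 : -(3 * Λ / 8) + (B * (2 * t.card + 1) + (n * (2 * B) + g x)) ≤ -32 := by
    have b1 := hx.2.2
    have b2 : n * (2 * B) ≤ 2 * t.card * (2 * B) := mul_le_mul_of_nonneg_right hn' (by positivity)
    have b3 : 8 * C * n ≤ 8 * C * (2 * t.card) := mul_le_mul_of_nonneg_left hn' (by positivity)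
    have b4 : (t.card : ℝ) * (6 * B + 16 * C) ≤ t.card * (2 * c1) :=
      mul_le_mul_of_nonneg_left (by linarith) ht0
    nlinarith
  have a6 := Real.exp_le_exp.2 a5
  have a7 : Real.exp (-32) * 33 ≤ 1 := by
    have := Real.add_one_le_exp (32 : ℝ)
    calc Real.exp (-32) * 33 ≤ Real.exp (-32) * Real.exp 32 :=
          mul_le_mul_of_nonneg_left (by linarith) (Real.exp_pos _).le
      _ = 1 := by rw [← Real.exp_add]; simp
  linarith

end Pool.Agent.H920Z.SSSB
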