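import Pool.Agent.H39Z.SSS.Spec

set_option autoImplicit false

namespace Pool.Agent.H920Z.SSSB

open Pool.Agent.H39Z.SSS MeasureTheory Polynomial Set

theorem basePoint (hP : S_P1) (α : Type) (J : Finset α) (κ : α → ℝ) (ζ : α → ℂ) (L : ℝ)
    (hL : 0 < L) (hκ : ∀ j ∈ J, 0 ≤ κ j) :
    ∃ x0 : ℂ, ‖x0‖ ≤ 2 * L ∧ (∀ j ∈ J, x0 ≠ ζ j) ∧
      ∑ j ∈ J, κ j / ‖x0 - ζ j‖ ≤ 16 / L * ∑ j ∈ J, κ j := by
  obtain ⟨a, ha, ha1, ha2⟩ := hP α J κ (fun j => (ζ j).re) L hL hκ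
  obtain ⟨b, hb, hb1, hb2⟩ := hP α J (fun j => κ j / √|a - (ζ j).re|) (fun j => (ζ j).im) L hL
    fun j hj => div_nonneg (hκ j hj) (Real.sqrt_nonneg _)
  refine ⟨⟨a, b⟩, ?_, fun j hj h => ha1 j hj (by rw [← h]), ?_⟩
  · refine (Complex.norm_le_abs_re_add_abs_im _).trans ?_
    simp only
    rw [abs_of_nonneg ha.1, abs_of_nonneg hb.1]
    linarith [ha.2, hb.2]
  · have hs : 0 < √L := Real.sqrt_pos.2 hL
    have e : 16 / L = 4 / √L * (4 / √L) := by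
      rw [div_mul_div_comm, Real.mul_self_sqrt hL.le]; norm_num
    rw [e, mul_assoc]
    refine le_trans ?_ (hb2.trans (mul_le_mul_of_nonneg_left ha2 (by positivity)))
    refine Finset.sum_le_sum fun j hj => ?_
    have p1 : 0 < |a - (ζ j).re| := abs_pos.2 (sub_ne_zero.2 (ha1 j hj))
    have p2 : 0 < |b - (ζ j).im| := abs_pos.2 (sub_ne_zero.2 (hb1 j hj))
    rw [div_div]
    refine div_le_div_of_nonneg_left (hκ j hj) (by positivity) ?_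
    have q1 : |a - (ζ j).re| ≤ ‖(⟨a, b⟩ : ℂ) - ζ j‖ := by
      simpa using Complex.abs_re_le_norm ((⟨a, b⟩ : ℂ) - ζ j)
    have q2 : |b - (ζ j).im| ≤ ‖(⟨a, b⟩ : ℂ) - ζ j‖ := by
      simpa using Complex.abs_im_le_norm ((⟨a, b⟩ : ℂ) - ζ j)
    calc √|a - (ζ j).re| * √|b - (ζ j).im|
        ≤ √‖(⟨a, b⟩ : ℂ) - ζ j‖ * √‖(⟨a, b⟩ : ℂ) - ζ j‖ :=
          mul_le_mul (Real.sqrt_le_sqrt q1) (Real.sqrt_le_sqrt q2) (Real.sqrt_nonneg _)
            (Real.sqrt_nonneg _)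
      _ = _ := Real.mul_self_sqrt (norm_nonneg _)

theorem factor (T : ℂ[X]) : ∃ (n : ℕ) (τ : Fin n → ℂ) (c : ℂ), n ≤ T.natDegree ∧
    ∀ s, T.eval s = c * ∏ k, (s - τ k) := by
  refine ⟨T.roots.toList.length, T.roots.toList.get, T.leadingCoeff, ?_, fun s => ?_⟩
  · rw [Multiset.length_toList]; exact card_roots' T
  · have h := (IsAlgClosed.splits T).eval_eq_prod_roots s
    rw [h]
    congr 1
    rw [← List.prod_ofFn]
    conv_lhs => rw [← Multiset.coe_toList T.roots, Multiset.map_coe, Multiset.prod_coe]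
    congr 1
    conv_lhs => rw [← List.ofFn_get T.roots.toList, List.map_ofFn]
    rfl

theorem numer (α : Type) (J : Finset α) (v : α → ℂ) (ζ : α → ℂ) :
    ∃ (n : ℕ) (τ : Fin n → ℂ) (c : ℂ), n ≤ J.card ∧ ∀ s, (∀ j ∈ J, s ≠ ζ j) →
      (1 - ∑ j ∈ J, v j / (s - ζ j)) * ∏ j ∈ J, (s - ζ j) = c * ∏ k, (s - τ k) := by
  classical
  obtain ⟨n, τ, c, hn, h⟩ := factor (∏ j ∈ J, (X - C (ζ j)) -
    ∑ j ∈ J, C (v j) * ∏ i ∈ J.erase j, (X - C (ζ i)))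
  have deg : ∀ S : Finset α, (∏ j ∈ S, (X - C (ζ j)) : ℂ[X]).natDegree ≤ S.card := fun S => by
    refine (natDegree_prod_le _ _).trans ?_
    simp
  refine ⟨n, τ, c, hn.trans ?_, fun s hs => ?_⟩
  · refine (natDegree_sub_le _ _).trans (max_le (deg J) ?_)
    refine natDegree_sum_le_of_forall_le _ _ fun j _ => (natDegree_C_mul_le _ _).trans ?_
    exact (deg _).trans Finset.card_erase_le
  · rw [← h s, sub_mul, one_mul, Finset.sum_mul]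
    simp only [eval_sub, eval_prod, eval_X, eval_C, eval_finsetSum, eval_mul]
    congr 1
    refine Finset.sum_congr rfl fun j hj => ?_
    rw [← Finset.mul_prod_erase J _ hj]
    have := sub_ne_zero.2 (hs j hj)
    field_simp

theorem shift {p q w : ℂ} {B : ℝ} (hB : ‖p - q‖ ≤ B) (hq : q ≠ w) :
    ‖p - w‖ ≤ ‖q - w‖ * (1 + B / ‖q - w‖) := by
  have h0 : 0 < ‖q - w‖ := norm_pos_iff.2 (sub_ne_zero.2 hq)
  have h1 : ‖p - w‖ ≤ ‖p - q‖ + ‖q - w‖ := norm_sub_le_norm_sub_add_norm_sub _ _ _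
  rw [mul_add, mul_one, mul_div_cancel₀ _ h0.ne']
  linarith

theorem lower (hP : S_P1) (W : ℝ) (hW : 0 ≤ W) (α : Type) (J : Finset α) (v : α → ℝ) (ζ : α → ℂ)
    (hv : ∀ j ∈ J, 0 ≤ v j) (hs : ∑ j ∈ J, v j ≤ W) :
    ∃ (n : ℕ) (τ : Fin n → ℂ), n ≤ J.card ∧ ∀ (ξ : ℂ) (B : ℝ), (∀ j ∈ J, ξ ≠ ζ j) →
      (∀ k, ξ ≠ τ k) → ‖ξ‖ + 64 * (W + 1) ≤ B →
      1 / 2 ≤ ‖1 - ∑ j ∈ J, (v j : ℂ) / (ξ - ζ j)‖ * Real.exp (B * (J.card + 1)) *
        ∏ k, (1 + B / ‖ξ - τ k‖) := by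
  obtain ⟨n, τ, c, hn, h⟩ := numer α J (fun j => (v j : ℂ)) ζ
  have hD : (0 : ℝ) < J.card + 1 := by positivity
  obtain ⟨x0, hx0, hne, hsum⟩ := basePoint hP α J (fun j => v j + 1 / (J.card + 1)) ζ
    (32 * (W + 1)) (by positivity) fun j hj => add_nonneg (hv j hj) (by positivity)
  have h1 : ∑ j ∈ J, (v j + 1 / ((J.card : ℝ) + 1)) ≤ W + 1 := by
    rw [Finset.sum_add_distrib, Finset.sum_const, nsmul_eq_mul, mul_one_div]
    have : (J.card : ℝ) / (J.card + 1) ≤ 1 := (div_le_one hD).2 (by linarith)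
    linarith
  have h2 : ∑ j ∈ J, (v j + 1 / ((J.card : ℝ) + 1)) / ‖x0 - ζ j‖ ≤ 1 / 2 := by
    refine hsum.trans ((mul_le_mul_of_nonneg_left h1 (by positivity)).trans (le_of_eq ?_))
    field_simp; norm_num
  simp only [add_div, Finset.sum_add_distrib] at h2
  have n1 : 0 ≤ ∑ j ∈ J, v j / ‖x0 - ζ j‖ :=
    Finset.sum_nonneg fun j hj => div_nonneg (hv j hj) (norm_nonneg _)
  have n2 : 0 ≤ ∑ j ∈ J, 1 / ((J.card : ℝ) + 1) / ‖x0 - ζ j‖ :=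
    Finset.sum_nonneg fun j _ => by positivity
  have h3 : ∑ j ∈ J, 1 / ‖x0 - ζ j‖ ≤ J.card + 1 := by
    have e : ∑ j ∈ J, 1 / ((J.card : ℝ) + 1) / ‖x0 - ζ j‖
        = (∑ j ∈ J, 1 / ‖x0 - ζ j‖) / (J.card + 1) := by
      rw [Finset.sum_div]
      exact Finset.sum_congr rfl fun j _ => by rw [div_right_comm]
    rw [e] at h2
    exact (div_le_one hD).1 (by linarith)
  have h4 : 1 / 2 ≤ ‖1 - ∑ j ∈ J, (v j : ℂ) / (x0 - ζ j)‖ := by
    have a : ‖∑ j ∈ J, (v j : ℂ) / (x0 - ζ j)‖ ≤ ∑ j ∈ J, v j / ‖x0 - ζ j‖ := by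
      refine (norm_sum_le _ _).trans (Finset.sum_le_sum fun j hj => ?_)
      rw [norm_div, Complex.norm_real, Real.norm_of_nonneg (hv j hj)]
    have b := norm_sub_norm_le (1 : ℂ) (∑ j ∈ J, (v j : ℂ) / (x0 - ζ j))
    rw [norm_one] at b
    linarith
  refine ⟨n, τ, hn, fun ξ B hξ hτ hB => ?_⟩
  have hB1 : ‖ξ - x0‖ ≤ B := (norm_sub_le _ _).trans (by linarith)
  have hB2 : ‖x0 - ξ‖ ≤ B := by rwa [norm_sub_rev]
  have hB0 : 0 ≤ B := (norm_nonneg _).trans hB1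
  have e0 := congrArg norm (h x0 hne)
  have e1 := congrArg norm (h ξ hξ)
  simp only [norm_mul, norm_prod] at e0 e1
  have pP : 0 < ∏ j ∈ J, ‖x0 - ζ j‖ :=
    Finset.prod_pos fun j hj => norm_pos_iff.2 (sub_ne_zero.2 (hne j hj))
  have a1 : ∏ k, ‖x0 - τ k‖ ≤ (∏ k, ‖ξ - τ k‖) * ∏ k, (1 + B / ‖ξ - τ k‖) := by
    rw [← Finset.prod_mul_distrib]
    exact Finset.prod_le_prod (fun k _ => norm_nonneg _) fun k _ => shift hB2 (hτ k)
  have a2 : ∏ j ∈ J, ‖ξ - ζ j‖ ≤ (∏ j ∈ J, ‖x0 - ζ j‖) * Real.exp (B * (J.card + 1)) := by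
    calc ∏ j ∈ J, ‖ξ - ζ j‖ ≤ ∏ j ∈ J, (‖x0 - ζ j‖ * Real.exp (B * (1 / ‖x0 - ζ j‖))) := by
          refine Finset.prod_le_prod (fun k _ => norm_nonneg _) fun j hj =>
            (shift hB1 (hne j hj)).trans (mul_le_mul_of_nonneg_left ?_ (norm_nonneg _))
          rw [mul_one_div, add_comm]
          exact Real.add_one_le_exp _
      _ = (∏ j ∈ J, ‖x0 - ζ j‖) * Real.exp (B * ∑ j ∈ J, 1 / ‖x0 - ζ j‖) := by
          rw [Finset.prod_mul_distrib, Finset.mul_sum, Real.exp_sum]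
      _ ≤ _ := mul_le_mul_of_nonneg_left
          (Real.exp_le_exp.2 (mul_le_mul_of_nonneg_left h3 hB0)) pP.le
  have pQ : 0 ≤ ∏ k, (1 + B / ‖ξ - τ k‖) := Finset.prod_nonneg fun k _ => by positivity
  refine le_of_mul_le_mul_right ?_ pP
  calc 1 / 2 * ∏ j ∈ J, ‖x0 - ζ j‖
      ≤ ‖1 - ∑ j ∈ J, (v j : ℂ) / (x0 - ζ j)‖ * ∏ j ∈ J, ‖x0 - ζ j‖ :=
        mul_le_mul_of_nonneg_right h4 pP.le
    _ = ‖c‖ * ∏ k, ‖x0 - τ k‖ := e0
    _ ≤ ‖c‖ * ((∏ k, ‖ξ - τ k‖) * ∏ k, (1 + B / ‖ξ - τ k‖)) :=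
        mul_le_mul_of_nonneg_left a1 (norm_nonneg _)
    _ = ‖1 - ∑ j ∈ J, (v j : ℂ) / (ξ - ζ j)‖ * (∏ j ∈ J, ‖ξ - ζ j‖) *
          ∏ k, (1 + B / ‖ξ - τ k‖) := by rw [e1]; ring
    _ ≤ ‖1 - ∑ j ∈ J, (v j : ℂ) / (ξ - ζ j)‖ *
          ((∏ j ∈ J, ‖x0 - ζ j‖) * Real.exp (B * (J.card + 1))) * ∏ k, (1 + B / ‖ξ - τ k‖) :=
        mul_le_mul_of_nonneg_right (mul_le_mul_of_nonneg_left a2 (norm_nonneg _)) pQ
    _ = _ := by ring

theorem dlog (z : ℂ) (x : ℝ) (hx : x ≠ z.re) :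
    HasDerivAt (fun y : ℝ => Real.log ‖(y : ℂ) - z‖) ((x - z.re) / ((x - z.re) ^ 2 + z.im ^ 2)) x := by
  have e : (fun y : ℝ => Real.log ‖(y : ℂ) - z‖)
      = fun y : ℝ => Real.log ((y - z.re) ^ 2 + z.im ^ 2) / 2 := by
    funext y
    have : ‖(y : ℂ) - z‖ ^ 2 = (y - z.re) ^ 2 + z.im ^ 2 := by
      rw [Complex.sq_norm, Complex.normSq_apply]; simp; ring
    rw [← this, Real.log_pow]; push_cast; ring
  rw [e]
  have hp : (x - z.re) ^ 2 + z.im ^ 2 ≠ 0 := by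
    have := sub_ne_zero.2 hx
    positivity
  have h1 : HasDerivAt (fun y : ℝ => (y - z.re) ^ 2 + z.im ^ 2) (2 * (x - z.re)) x := by
    have := (((hasDerivAt_id x).sub_const z.re).pow 2).add_const (z.im ^ 2)
    simpa using this
  exact ((h1.log hp).div_const 2).congr_deriv (by field_simp)

theorem cplx (z : ℂ) (x w : ℝ) (hx : x ≠ z.re) :
    ((w * ((x - z.re) / ((x - z.re) ^ 2 + z.im ^ 2)) : ℝ) : ℂ)
      = ((w / 2 : ℝ) : ℂ) / (x - z) + ((w / 2 : ℝ) : ℂ) / (x - (starRingEnd ℂ) z) := by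
  have h1 : (x : ℂ) - z ≠ 0 := fun h => hx (by simpa [sub_eq_zero] using congrArg Complex.re h)
  have h2 : (x : ℂ) - (starRingEnd ℂ) z ≠ 0 := fun h =>
    hx (by simpa [sub_eq_zero] using congrArg Complex.re h)
  have e : (((x - z.re) ^ 2 + z.im ^ 2 : ℝ) : ℂ) = (x - z) * (x - (starRingEnd ℂ) z) := by
    apply Complex.ext <;> simp [pow_two] <;> ring
  have e2 : ((x - z.re : ℝ) : ℂ) = ((x - z) + (x - (starRingEnd ℂ) z)) / 2 := by
    apply Complex.ext <;> simp <;> ring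
  rw [Complex.ofReal_mul, Complex.ofReal_div, e, e2]
  push_cast
  field_simp
  ring

theorem mono_step {f f' : ℝ → ℝ} {x y r : ℝ} (hr : 0 < r) (hxy : x + r ≤ y)
    (hd : ∀ s ∈ Icc x y, HasDerivAt f (f' s) s) (h0 : ∀ s ∈ Icc x y, f' s ≠ 0) :
    ∃ ξ ∈ Icc x (x + r), |f' ξ| * r ≤ |f x| + |f y| := by
  have hc : ContinuousOn f (Icc x y) := fun s hs => (hd s hs).continuousAt.continuousWithinAt
  have hinj : InjOn f (Icc x y) := by
    have key : ∀ a ∈ Icc x y, ∀ b ∈ Icc x y, a < b → f a ≠ f b := fun a ha b hb hab he => by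
      obtain ⟨c, hc1, hc2⟩ := exists_hasDerivAt_eq_zero hab
        (hc.mono (Icc_subset_Icc ha.1 hb.2)) he
        fun s hs => hd s ⟨ha.1.trans hs.1.le, hs.2.le.trans hb.2⟩
      exact h0 c ⟨ha.1.trans hc1.1.le, hc1.2.le.trans hb.2⟩ hc2
    intro a ha b hb he
    rcases lt_trichotomy a b with h | h | h
    · exact (key a ha b hb h he).elim
    · exact h
    · exact (key b hb a ha h he.symm).elim
  obtain ⟨ξ, hξ, he⟩ := exists_hasDerivAt_eq_slope f f' (show x < x + r by linarith)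
    (hc.mono (Icc_subset_Icc le_rfl hxy)) fun s hs => hd s ⟨hs.1.le, hs.2.le.trans hxy⟩
  refine ⟨ξ, ⟨hξ.1.le, hξ.2.le⟩, ?_⟩
  rw [he, add_sub_cancel_left, abs_div, abs_of_pos hr, div_mul_cancel₀ _ hr.ne']
  have m1 : x ∈ Icc x y := ⟨le_rfl, by linarith⟩
  have m2 : x + r ∈ Icc x y := ⟨by linarith, hxy⟩
  have m3 : y ∈ Icc x y := ⟨by linarith, le_rfl⟩
  have b1 := le_abs_self (f x)
  have b2 := neg_abs_le (f x)
  have b3 := le_abs_self (f y)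
  have b4 := neg_abs_le (f y)
  rcases hc.strictMonoOn_of_injOn_Icc' (by linarith) hinj with h | h
  · have c1 := h.monotoneOn m1 m2 (by linarith)
    have c2 := h.monotoneOn m2 m3 hxy
    rw [abs_le]; constructor <;> linarith
  · have c1 := h.antitoneOn m1 m2 (by linarith)
    have c2 := h.antitoneOn m2 m3 hxy
    rw [abs_le]; constructor <;> linarith

theorem lp_nonneg (δ y : ℝ) (hδ : 0 < δ) : 0 ≤ H39Z.SSS.lp δ y := by
  unfold H39Z.SSS.lp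
  have h : 0 < min 1 (max y δ) := lt_min one_pos (hδ.trans_le (le_max_right _ _))
  have := Real.log_nonpos h.le (min_le_left _ _)
  linarith

theorem lp_le (δ y : ℝ) (hδ : 0 < δ) (h1 : δ ≤ 1) : H39Z.SSS.lp δ y ≤ -Real.log δ := by
  unfold H39Z.SSS.lp
  have := Real.log_le_log hδ (le_min h1 (le_max_right y δ))
  linarith

theorem lp_ge {δ y ρ : ℝ} (hδ : 0 < δ) (h1 : δ ≤ ρ) (hy : y ≤ ρ) : -Real.log ρ ≤ H39Z.SSS.lp δ y := by
  unfold H39Z.SSS.lp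
  have h : 0 < min 1 (max y δ) := lt_min one_pos (hδ.trans_le (le_max_right _ _))
  have := Real.log_le_log h ((min_le_right _ _).trans (max_le hy h1))
  linarith

theorem lp_exp {δ y B : ℝ} (hδ : 0 < δ) (hy : δ ≤ y) (hB : 0 ≤ B) :
    1 + B / y ≤ (1 + B) * Real.exp (H39Z.SSS.lp δ y) := by
  unfold H39Z.SSS.lp
  have hy0 : 0 < y := hδ.trans_le hy
  rw [max_eq_left hy, Real.exp_neg, Real.exp_log (lt_min one_pos hy0)]
  rcases le_total 1 y with h | h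
  · rw [min_eq_left h, inv_one, mul_one]
    have : B / y ≤ B := div_le_self hB h
    linarith
  · rw [min_eq_right h, add_mul, one_mul, div_eq_mul_inv]
    have : 1 ≤ y⁻¹ := (one_le_inv₀ hy0).2 h
    linarith

theorem lp_int (ν : Measure ℝ) [IsFiniteMeasure ν] (δ : ℝ) (hδ : 0 < δ) (h1 : δ ≤ 1) (t : ℂ) :
    Integrable (fun x : ℝ => H39Z.SSS.lp δ ‖(x : ℂ) - t‖) ν := by
  refine Integrable.of_bound ?_ (-Real.log δ) (Filter.Eventually.of_forall fun x => ?_)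
  · unfold H39Z.SSS.lp
    refine Measurable.aestronglyMeasurable ?_
    fun_prop
  · rw [Real.norm_of_nonneg (lp_nonneg _ _ hδ)]
    exact lp_le _ _ hδ h1

end Pool.Agent.H920Z.SSSB
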